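import Pool.Agent.Helper14_ISB.All

/-!
# Isbell's conjecture for groups with a normal 2-subgroup whose point stabilisers have bounded class

For every odd prime `r` and every `n` there is `A` such that the following holds for all `a ≥ A`.  Let `G` be a
transitive group of permutations of `2 ^ a * r` points with a normal 2-subgroup `P` all of whose orbits have
`2 ^ a` points (for example a normal Sylow 2-subgroup), and suppose that a point stabiliser in `P` is nilpotent
of class at most `n`.  Then `G` contains a derangement of 2-power order.
-/

namespace Pool.Agent.Results.MP_4f548a_al.BoundedClassStabilisers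

/-- Let `r` be an odd prime and `n` a natural number.  There is `A` such that for all `a ≥ A`, every transitive
group `G` of permutations of `2 ^ a * r` points and every normal 2-subgroup `P` of `G` such that either all
orbits of `P` have exactly `2 ^ a` points, or `P` is a Sylow 2-subgroup of `G`: if the stabiliser in `P` of some
point is nilpotent of class at most `n`, then `G` contains a derangement of 2-power order. -/
theorem result (r n : ℕ) (hr : r.Prime) (hodd : Odd r) :
    ∃ A : ℕ, ∀ a, A ≤ a → ∀ G : Subgroup (Equiv.Perm (Fin (2 ^ a * r))),
      (∀ x y : Fin (2 ^ a * r), ∃ g ∈ G, g x = y) →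
      ∀ P : Subgroup G, P.Normal → IsPGroup 2 P →
      ((∀ x : Fin (2 ^ a * r), (MulAction.orbit P x).ncard = 2 ^ a) ∨
        ∃ Q : Sylow 2 G, (Q : Subgroup G) = P) →
      (∃ x : Fin (2 ^ a * r), (MulAction.stabilizer G x ⊓ P).lowerCentralSeries n = ⊥) →
      ∃ g ∈ G, (∀ x : Fin (2 ^ a * r), g x ≠ x) ∧ ∃ k : ℕ, orderOf g = 2 ^ k :=
  Pool.Agent.ISB.H14.final Pool.Agent.ISB.H14.fin_row Pool.Agent.ISB.H14.syl_row r n hr hodd

end Pool.Agent.Results.MP_4f548a_al.BoundedClassStabilisers
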