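import Pool.Agent.Helper41_Isbell.Length

/-!
# Isbell's conjecture for transitive groups of bounded length

If a transitive group `G` of degree `2 ^ a * b` (`b` odd) has a normal series of length `d` all of whose
factors have Sylow 2-subgroups of nilpotency class at most `c`, and `2 ^ a * b > b ^ (2 ^ (c * d))`, then
`G` contains a derangement of 2-power order.
-/

namespace Pool.Agent.Results.MP_4f548a_al.BoundedLength

open MulAction Pool.Agent.Helper41.Isbell

/-- Let `b` be odd and let `G` be a transitive group of permutations of `2 ^ a * b` points.  Suppose that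
`G` has a series `1 = N 0 ≤ N 1 ≤ ... ≤ N d = G` of normal subgroups such that, for a Sylow 2-subgroup `P`
of `G`, the Sylow 2-subgroup `P ∩ N (i + 1)` of `N (i + 1)` has nilpotency class at most `c` modulo `N i`
(that is, every factor `N (i + 1) / N i` has Sylow 2-subgroups of class at most `c`).  If
`b ^ (2 ^ (c * d)) < 2 ^ a * b`, then `G` contains a derangement of 2-power order. -/
theorem result (a b c d : ℕ) (hb : Odd b) (G : Subgroup (Equiv.Perm (Fin (2 ^ a * b))))
    (htrans : ∀ x y : Fin (2 ^ a * b), ∃ g ∈ G, g x = y)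
    (N : ℕ → Subgroup G) (hnormal : ∀ i, (N i).Normal) (hbot : N 0 = ⊥) (htop : N d = ⊤)
    (hmono : ∀ i < d, N i ≤ N (i + 1)) (P : Sylow 2 G)
    (hclass : ∀ i < d, ((P : Subgroup G) ⊓ N (i + 1)).lowerCentralSeries c ≤ N i)
    (hbig : b ^ (2 ^ (c * d)) < 2 ^ a * b) :
    ∃ g ∈ G, (∀ x : Fin (2 ^ a * b), g x ≠ x) ∧ ∃ k : ℕ, orderOf g = 2 ^ k := by
  classical
  by_contra hcon
  push Not at hcon
  have hn : 0 < 2 ^ a * b := lt_of_le_of_lt (Nat.zero_le _) hbig
  let x0 : Fin (2 ^ a * b) := ⟨0, hn⟩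
  have : IsPretransitive G (Fin (2 ^ a * b)) := ⟨fun x y => by
    obtain ⟨g, hg, hgx⟩ := htrans x y
    exact ⟨⟨g, hg⟩, hgx⟩⟩
  let H : Subgroup G := stabilizer G x0
  have hidx : H.index = 2 ^ a * b := by
    have h1 := MulAction.index_stabilizer_of_transitive G x0
    rw [h1, Nat.card_eq_fintype_card, Fintype.card_fin]
  have hfix : ∀ g : G, (∃ k, orderOf g = 2 ^ k) → ∃ x : G ⧸ H, g • x = x := by
    intro g hg
    obtain ⟨k, hk⟩ := hg
    have h1 : ∃ x : Fin (2 ^ a * b), (g : Equiv.Perm _) x = x := by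
      by_contra hno
      push Not at hno
      exact hcon g.1 g.2 hno k (by rw [← hk]; exact Subgroup.orderOf_coe g)
    obtain ⟨x, hx⟩ := h1
    obtain ⟨y, rfl⟩ := exists_smul_eq G x0 x
    refine ⟨((y : G) : G ⧸ H), ?_⟩
    change ((g * y : G) : G ⧸ H) = ((y : G) : G ⧸ H)
    rw [QuotientGroup.eq, mem_stabilizer_iff]
    have hx' : g • (y • x0) = y • x0 := hx
    rw [mul_inv_rev, mul_smul, mul_smul, inv_smul_eq_iff, inv_smul_eq_iff]
    exact hx'.symm
  have := index_bound H hfix a b c d hb hidx N hnormal hbot htop hmono P hclass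
  omega

end Pool.Agent.Results.MP_4f548a_al.BoundedLength
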