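import Pool.Agent.Helper41_Isbell.TwoGroup

/-!
# The 2-group version of Isbell's conjecture fails for eight orbits

For every `a` there is a finite 2-group acting on a finite set with exactly eight orbits, each of size
`2 ^ a`, such that every element of the group has a fixed point.
-/

namespace Pool.Agent.Results.MP_4f548a_al.EightOrbits

open MulAction Pool.Agent.Helper41.Isbell

/-- A family of at least one small subgroups covering a 2-group up to conjugacy gives an action. -/
theorem assemble {P I : Type} [Group P] [Finite P] [Finite I] (H : I → Subgroup P) (a : ℕ)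
    (hidx : ∀ i, (H i).index = 2 ^ a) (hcov : ∀ g : P, ∃ i, ∃ x : P, x * g * x⁻¹ ∈ H i) :
    Nat.card (orbitRel.Quotient P (Σ i, P ⧸ H i)) = Nat.card I ∧
      (∀ x : (Σ i, P ⧸ H i), Nat.card (orbit P x) = 2 ^ a) ∧
      ∀ g : P, ∃ x : (Σ i, P ⧸ H i), g • x = x := by
  refine ⟨?_, ?_, ?_⟩
  · apply Nat.card_congr
    refine Equiv.ofBijective (Quotient.lift (fun x : (Σ i, P ⧸ H i) => x.1) ?_) ?_
    · rintro x y ⟨g, rfl⟩
      rfl
    · constructor
      · intro x y
        refine Quotient.inductionOn₂ x y ?_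
        rintro ⟨i, x⟩ ⟨j, y⟩ h
        change i = j at h
        subst h
        apply Quotient.sound
        obtain ⟨g, hg⟩ := exists_smul_eq P y x
        refine ⟨g, ?_⟩
        change (⟨i, g • y⟩ : Σ i, P ⧸ H i) = ⟨i, x⟩
        rw [hg]
      · intro i
        exact ⟨Quotient.mk'' (⟨i, ((1 : P) : P ⧸ H i)⟩ : Σ i, P ⧸ H i), rfl⟩
  · rintro ⟨i, x⟩
    rw [← hidx i]
    apply Nat.card_congr
    symm
    refine Equiv.ofBijective (fun y : P ⧸ H i => (⟨⟨i, y⟩, ?_⟩ : orbit P (⟨i, x⟩ : Σ i, P ⧸ H i))) ?_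
    · obtain ⟨g, hg⟩ := exists_smul_eq P x y
      refine ⟨g, ?_⟩
      change (⟨i, g • x⟩ : Σ i, P ⧸ H i) = ⟨i, y⟩
      rw [hg]
    · constructor
      · intro y z h
        have := congrArg Subtype.val h
        simpa using this
      · rintro ⟨_, g, rfl⟩
        exact ⟨g • x, rfl⟩
  · intro g
    obtain ⟨i, x, hx⟩ := hcov g
    refine ⟨⟨i, ((x⁻¹ : P) : P ⧸ H i)⟩, ?_⟩
    change (⟨i, ((g * x⁻¹ : P) : P ⧸ H i)⟩ : Σ i, P ⧸ H i) = ⟨i, ((x⁻¹ : P) : P ⧸ H i)⟩
    congr 1
    rw [eq_comm, QuotientGroup.eq, inv_inv, ← mul_assoc]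
    exact hx

/-- For every `a` there are a finite 2-group `P` and a finite `P`-set with exactly eight orbits, all of
size `2 ^ a`, such that every element of `P` fixes a point. -/
theorem result (a : ℕ) :
    ∃ (P X : Type) (_ : Group P) (_ : Finite P) (_ : Finite X) (_ : MulAction P X),
      IsPGroup 2 P ∧ Nat.card (orbitRel.Quotient P X) = 8 ∧
      (∀ x : X, Nat.card (orbit P x) = 2 ^ a) ∧ ∀ g : P, ∃ x : X, g • x = x := by
  classical
  have : Fact (Nat.Prime 3) := ⟨Nat.prime_three⟩
  let K := GaloisField 2 3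
  have hcard : Nat.card K = 2 ^ 3 := GaloisField.card 2 3 (by norm_num)
  let m := a
  have hfin : Finite (tw K (m + 1)) := Finite.of_equiv _ (rowEquiv K m).symm
  let P := princ K m
  have hP : Nat.card P = 2 ^ (3 * m) := by
    rw [card_princ, hcard, ← pow_mul]
  have hPG : IsPGroup 2 P := IsPGroup.of_card hP
  -- the subgroups
  let H : Option Kˣ → Subgroup P := fun i => match i with
    | none => (unram K m).subgroupOf P
    | some l => ((fixedUnits K (m + 1)).comap (MulAut.conj (iotaU K m l)).toMonoidHom).subgroupOf P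
  have hH : ∀ i, Nat.card (H i) ≤ 2 ^ m := by
    intro i
    match i with
    | none =>
      have h1 : Nat.card ((unram K m).subgroupOf P) ≤ Nat.card (unram K m) := by
        apply Nat.card_le_card_of_injective (fun x => (⟨x.1.1, x.2⟩ : unram K m))
        intro x y h
        have h' : x.1.1 = y.1.1 := congrArg (fun z : unram K m => z.1) h
        exact Subtype.ext (Subtype.ext h')
      calc Nat.card ((unram K m).subgroupOf P) ≤ Nat.card (unram K m) := h1
        _ ≤ (2 ^ 3) ^ (m / 3) := card_unram_le K m hcard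
        _ = 2 ^ (3 * (m / 3)) := by rw [← pow_mul]
        _ ≤ 2 ^ m := Nat.pow_le_pow_right (by norm_num) (Nat.mul_div_le m 3)
    | some l =>
      rw [← card_fixedUnits K m]
      apply Nat.card_le_card_of_injective
        (fun x => (⟨MulAut.conj (iotaU K m l) x.1.1, x.2⟩ : fixedUnits K (m + 1)))
      intro x y h
      have h' : MulAut.conj (iotaU K m l) x.1.1 = MulAut.conj (iotaU K m l) y.1.1 :=
        congrArg (fun z : fixedUnits K (m + 1) => z.1) h
      exact Subtype.ext (Subtype.ext ((MulAut.conj (iotaU K m l)).injective h'))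
  have hex : ∀ i, ∃ H' : Subgroup P, Nat.card H' = 2 ^ (3 * m - a) ∧ H i ≤ H' := by
    intro i
    obtain ⟨n, hn⟩ := (IsPGroup.iff_card (p := 2)).mp (hPG.to_subgroup (H i))
    apply Sylow.exists_subgroup_card_pow_prime_le 2 (n := n) (m := 3 * m - a)
      (by rw [hP]; exact pow_dvd_pow 2 (Nat.sub_le _ _)) (H i) hn
    have h1 := hH i
    rw [hn] at h1
    have h2 : n ≤ m := (Nat.pow_le_pow_iff_right (by norm_num)).mp h1
    have : m = a := rfl
    omega
  choose H' hH' hle using hex
  have hidx : ∀ i, (H' i).index = 2 ^ a := by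
    intro i
    have h1 := Subgroup.card_mul_index (H' i)
    rw [hH', hP] at h1
    have h2 : 2 ^ (3 * m) = 2 ^ (3 * m - a) * 2 ^ a := by
      rw [← pow_add]; congr 1
      have : m = a := rfl
      omega
    rw [h2] at h1
    exact Nat.eq_of_mul_eq_mul_left (by positivity) h1
  have hcov : ∀ g : P, ∃ i, ∃ x : P, x * g * x⁻¹ ∈ H' i := by
    intro g
    have hg1 : aug K (m + 1) (g.1 : tw K (m + 1)) = 1 := (mem_princ K m g.1).mp g.2
    obtain ⟨u, hu⟩ := conj_cover K (n := m + 1) hcard (by decide) (g.1 : tw K (m + 1))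
    let l : Kˣ := Units.map (aug K (m + 1) : tw K (m + 1) →* K) u
    have hl : aug K (m + 1) (iotaU K m l : tw K (m + 1)) = l := aug_ι K (m + 1) _
    let x : P := ⟨(iotaU K m l)⁻¹ * u, by
      rw [mem_princ, Units.val_mul, map_mul]
      have h1 : aug K (m + 1) (((iotaU K m l)⁻¹ : (tw K (m + 1))ˣ) : tw K (m + 1)) *
          aug K (m + 1) (iotaU K m l : tw K (m + 1)) = 1 := by
        rw [← map_mul, Units.inv_mul, map_one]
      rw [hl] at h1
      exact h1⟩
    have hx : iotaU K m l * (x * g * x⁻¹ : P).1 * (iotaU K m l)⁻¹ = u * g.1 * u⁻¹ := by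
      change iotaU K m l * ((iotaU K m l)⁻¹ * u * g.1 * ((iotaU K m l)⁻¹ * u)⁻¹) *
        (iotaU K m l)⁻¹ = u * g.1 * u⁻¹
      group
    rcases hu with hu | hu
    · refine ⟨some l, x, hle _ ?_⟩
      change MulAut.conj (iotaU K m l) (x * g * x⁻¹ : P).1 ∈ fixedUnits K (m + 1)
      rw [MulAut.conj_apply, hx, mem_fixedUnits]
      simp only [Units.val_mul]
      exact hu
    · refine ⟨none, x, hle _ ?_⟩
      change (x * g * x⁻¹ : P).1 ∈ unram K m
      -- the element commutes with `iotaU l`
      have hw : u * g.1 * u⁻¹ ∈ unram K m := by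
        rw [mem_unram]
        refine ⟨?_, ?_⟩
        · rw [Units.val_mul, Units.val_mul, map_mul, map_mul, hg1, mul_one, ← map_mul,
            Units.mul_inv, map_one]
        · intro b
          simp only [Units.val_mul]
          exact hu b
      have hcomm : (u * g.1 * u⁻¹) * iotaU K m l = iotaU K m l * (u * g.1 * u⁻¹) := by
        apply Units.ext
        exact ((mem_unram K m _).mp hw).2 l
      have h2 : (x * g * x⁻¹ : P).1 = u * g.1 * u⁻¹ := by
        have h3 : (x * g * x⁻¹ : P).1 = (iotaU K m l)⁻¹ * (u * g.1 * u⁻¹) * iotaU K m l := by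
          rw [← hx]; group
        rw [h3, mul_assoc, hcomm, ← mul_assoc, inv_mul_cancel, one_mul]
      rw [h2]
      exact hw
  obtain ⟨h1, h2, h3⟩ := assemble H' a hidx hcov
  have hI : Nat.card (Option Kˣ) = 8 := by
    rw [Finite.card_option, Nat.card_units, hcard]; norm_num
  exact ⟨P, (Σ i, P ⧸ H' i), inferInstance, inferInstance, inferInstance, inferInstance, hPG,
    by rw [h1, hI], h2, h3⟩

end Pool.Agent.Results.MP_4f548a_al.EightOrbits
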