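import Pool.Agent.Helper41_Isbell.CountTw
import Pool.Agent.Helper41_Isbell.Transport

/-!
# A quadratic-logarithmic lower bound in Isbell's conjecture

For every odd prime `q`, every odd multiple `b` of `2 ^ q - 1` and every `a ≤ (q - 1) ^ 2` there is a
transitive group of degree `2 ^ a * b` without derangements of 2-power order.  So the number `A(b)` of
Isbell's conjecture, if it exists, is larger than `(q - 1) ^ 2`.
-/

namespace Pool.Agent.Results.MP_4f548a_al.LowerBound

open MulAction Pool.Agent.Helper41.Isbell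

/-- For an odd prime `q`, an odd number `r` and `a ≤ (q - 1) ^ 2` there is a transitive permutation group
of degree `2 ^ a * ((2 ^ q - 1) * r)` that contains no derangement of 2-power order. -/
theorem result (q : ℕ) (hq : q.Prime) (hq2 : q ≠ 2) (r : ℕ) (hr : Odd r) (a : ℕ)
    (ha : a ≤ (q - 1) ^ 2) :
    ∃ G : Subgroup (Equiv.Perm (Fin (2 ^ a * ((2 ^ q - 1) * r)))),
      (∀ x y : Fin (2 ^ a * ((2 ^ q - 1) * r)), ∃ g ∈ G, g x = y) ∧
      ¬ ∃ g ∈ G, (∀ x : Fin (2 ^ a * ((2 ^ q - 1) * r)), g x ≠ x) ∧ ∃ k : ℕ, orderOf g = 2 ^ k := by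
  classical
  have : Fact q.Prime := ⟨hq⟩
  have hodd : Odd q := hq.odd_of_ne_two hq2
  obtain ⟨m, rfl⟩ : ∃ m, q = m + 1 := ⟨q - 1, by have := hq.pos; omega⟩
  let K := GaloisField 2 (m + 1)
  have hcard : Nat.card K = 2 ^ (m + 1) := GaloisField.card 2 (m + 1) (by omega)
  have : NeZero r := ⟨hr.pos.ne'⟩
  let A := (tw K (m + 1))ˣ
  have : Finite (tw K (m + 1)) := Finite.of_equiv _ (rowEquiv K m).symm
  let T : Subgroup A := fixedUnits K (m + 1)
  have hA : Nat.card A = (2 ^ (m + 1) - 1) * 2 ^ ((m + 1) * m) := by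
    rw [card_units, hcard, ← pow_mul]
  have hT : Nat.card T = 2 ^ m := card_fixedUnits K m
  have ha' : a ≤ m * m := by simpa [sq] using ha
  -- enlarge T
  obtain ⟨T', hT', hTT'⟩ := Sylow.exists_subgroup_card_pow_prime_le 2 (n := m)
    (m := (m + 1) * m - a) (G := A)
    (by rw [hA]; exact Dvd.dvd.mul_left (pow_dvd_pow 2 (Nat.sub_le _ _)) _) T hT
    (by
      have h1 : (m + 1) * m = m * m + m := by ring
      omega)
  let B := Multiplicative (ZMod r)
  have hB : Nat.card B = r := by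
    change Nat.card (ZMod r) = r
    simp
  let H : Subgroup (A × B) := T'.prod ⊥
  have hidxT : T'.index = 2 ^ a * (2 ^ (m + 1) - 1) := by
    have h1 := Subgroup.card_mul_index T'
    rw [hT', hA] at h1
    have h2 : 2 ^ ((m + 1) * m) = 2 ^ ((m + 1) * m - a) * 2 ^ a := by
      rw [← pow_add]
      congr 1
      have h1 : (m + 1) * m = m * m + m := by ring
      omega
    have h3 : 2 ^ ((m + 1) * m - a) * T'.index =
        2 ^ ((m + 1) * m - a) * (2 ^ a * (2 ^ (m + 1) - 1)) := by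
      rw [h1, h2]
      generalize 2 ^ ((m + 1) * m - a) = x
      generalize 2 ^ (m + 1) - 1 = y
      ring
    exact Nat.eq_of_mul_eq_mul_left (by positivity) h3
  have hidx : H.index = 2 ^ a * ((2 ^ (m + 1) - 1) * r) := by
    rw [Subgroup.index_prod, hidxT, Subgroup.index_bot, hB]; ring
  have hX : Nat.card ((A × B) ⧸ H) = 2 ^ a * ((2 ^ (m + 1) - 1) * r) := hidx
  obtain ⟨G, hG1, hG2⟩ := exists_perm_group (Γ := A × B) (X := (A × B) ⧸ H) _ hX (by
    rintro ⟨g, b⟩ ⟨k, hk⟩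
    have hpow : ((g, b) : A × B) ^ (2 ^ k) = 1 := by rw [← hk]; exact pow_orderOf_eq_one _
    have hg : g ^ (2 ^ k) = 1 := congrArg Prod.fst hpow
    have hb : b ^ (2 ^ k) = 1 := congrArg Prod.snd hpow
    have hb1 : b = 1 := by
      have h1 := orderOf_dvd_of_pow_eq_one hb
      have h2 : orderOf b ∣ r := by
        have := orderOf_dvd_natCard b
        rwa [hB] at this
      have hcop : Nat.Coprime (2 ^ k) r := by
        apply Nat.Coprime.pow_left
        exact (Nat.Prime.coprime_iff_not_dvd Nat.prime_two).mpr hr.not_two_dvd_nat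
      have h3 := Nat.eq_one_of_dvd_coprimes hcop h1 h2
      rwa [orderOf_eq_one_iff] at h3
    obtain ⟨u, hu⟩ := conj_of_two_pow hcard hodd le_rfl g k hg
    refine ⟨(((u⁻¹, 1) : A × B) : (A × B) ⧸ H), ?_⟩
    change ((((g, b) : A × B) * (u⁻¹, 1) : A × B) : (A × B) ⧸ H) = _
    rw [eq_comm, QuotientGroup.eq]
    refine ⟨?_, ?_⟩
    · change (u⁻¹)⁻¹ * (g * u⁻¹) ∈ T'
      rw [inv_inv, ← mul_assoc]
      exact hTT' hu
    · change (1 : B)⁻¹ * (b * 1) ∈ (⊥ : Subgroup B)
      rw [hb1]; simp)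
  refine ⟨G, hG1, ?_⟩
  rintro ⟨g, hg, hfpf, hk⟩
  obtain ⟨x, hx⟩ := hG2 g hg hk
  exact hfpf x hx

end Pool.Agent.Results.MP_4f548a_al.LowerBound
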